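import Mathlib.Combinatorics.SimpleGraph.Finite
import Mathlib.Combinatorics.SimpleGraph.Maps
import Mathlib.Data.Set.Card
import Mathlib.Algebra.Order.Archimedean.Real.Basic
import Mathlib.Tactic

/-!
# Far-from-far graphs in the dense graph model

There is a graph property (the number of edges lies in a certain set) whose dual problem does not
reduce to tolerant testing: for all `ε = 2⁻ᵏ`, `k ≥ 2`, and all large `v`, some graph far from the
graphs far from the property is itself almost `ε`-far from the property.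
-/

namespace Pool.Agent.Results.MP_cccbef_lc.EdgeCounts

/-- The number of pairs in which two graphs on `{1, …, v}` differ. -/
noncomputable def dist {v : ℕ} (G H : SimpleGraph (Fin v)) : ℕ :=
  (symmDiff G.edgeSet H.edgeSet).ncard

/-- `Far δ S` is the set of the graphs at distance at least `δ` from `S` (all graphs if `S = ∅`). -/
def Far {v : ℕ} (δ : ℝ) (S : Set (SimpleGraph (Fin v))) : Set (SimpleGraph (Fin v)) :=
  {G | ∀ H ∈ S, δ ≤ (dist G H : ℝ)}

/-- The graphs at distance at most `δ` from `S`. -/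
def Near {v : ℕ} (δ : ℝ) (S : Set (SimpleGraph (Fin v))) : Set (SimpleGraph (Fin v)) :=
  {G | ∃ H ∈ S, (dist G H : ℝ) ≤ δ}

/-- A graph property: a sequence of sets of graphs closed under isomorphism. -/
def IsGraphProperty (P : ∀ v : ℕ, Set (SimpleGraph (Fin v))) : Prop :=
  ∀ (v : ℕ) (G H : SimpleGraph (Fin v)), Nonempty (G ≃g H) → G ∈ P v → H ∈ P v

/-- The dual problem of `P` reduces to tolerant testing. -/
def DualReduces (P : ∀ v : ℕ, Set (SimpleGraph (Fin v))) : Prop :=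
  ∃ ε₀ : ℝ, 0 < ε₀ ∧ ∀ ε : ℝ, 0 < ε → ε ≤ ε₀ → ∃ α : ℝ, α < 1 ∧ ∃ v₀ : ℕ, ∀ v : ℕ, v₀ ≤ v →
    Far (ε * (v.choose 2 : ℝ)) (Far (ε * (v.choose 2 : ℝ)) (P v)) ⊆
      Near (α * (ε * (v.choose 2 : ℝ))) (P v)

/-- The numbers of edges allowed: `r N 1 = 0`, and the gap from `r N k` to `r N (k+1)` is twice
the largest integer below `N / 2 ^ (k + 1)`. -/
def r (N : ℕ) : ℕ → ℕ
  | 0 => 0
  | 1 => 0
  | (k + 2) => r N (k + 1) + 2 * ((N - 1) / 2 ^ (k + 2))

theorem r_le (N : ℕ) (k : ℕ) : r N (k + 1) + 2 * ((N - 1) / 2 ^ (k + 1)) ≤ N - 1 := by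
  induction k with
  | zero =>
    have : r N (0 + 1) = 0 := rfl
    rw [this]
    simp only [zero_add, pow_one]
    omega
  | succ k ih =>
    have h1 : r N (k + 1 + 1) = r N (k + 1) + 2 * ((N - 1) / 2 ^ (k + 2)) := rfl
    have h2 : (N - 1) / 2 ^ (k + 2) = (N - 1) / 2 ^ (k + 1) / 2 := by
      rw [Nat.div_div_eq_div_mul, ← pow_succ]
    rw [h1]
    have h3 : (N - 1) / 2 ^ (k + 1 + 1) = (N - 1) / 2 ^ (k + 2) := rfl
    rw [h3, h2]
    omega

/-- The property: the number of edges is one of the numbers `r N k`, `k ≥ 1`. -/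
def Pr (v : ℕ) : Set (SimpleGraph (Fin v)) :=
  {G | ∃ k : ℕ, G.edgeSet.ncard = r (v.choose 2) (k + 1)}

theorem isGraphProperty : IsGraphProperty Pr := by
  rintro v G H ⟨e⟩ ⟨k, hk⟩
  refine ⟨k, ?_⟩
  rw [← hk]
  exact (Nat.card_congr e.mapEdgeSet).symm

/-- all pairs of distinct vertices -/
theorem ncard_top (v : ℕ) : (⊤ : SimpleGraph (Fin v)).edgeSet.ncard = v.choose 2 := by
  classical
  rw [← SimpleGraph.coe_edgeFinset, Set.ncard_coe_finset]
  simpa using SimpleGraph.card_edgeFinset_top_eq_card_choose_two (V := Fin v)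

theorem abs_sub_le {v : ℕ} (G H : SimpleGraph (Fin v)) :
    |(G.edgeSet.ncard : ℝ) - H.edgeSet.ncard| ≤ dist G H := by
  have key : ∀ A B : SimpleGraph (Fin v), A.edgeSet.ncard ≤ B.edgeSet.ncard + dist A B := by
    intro A B
    have h : A.edgeSet ⊆ B.edgeSet ∪ symmDiff A.edgeSet B.edgeSet := by
      intro x hx
      by_cases hB : x ∈ B.edgeSet
      · exact Or.inl hB
      · exact Or.inr (Or.inl ⟨hx, hB⟩)
    exact (Set.ncard_le_ncard h (Set.toFinite _)).trans (Set.ncard_union_le _ _)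
  have h1 := key G H
  have h2 := key H G
  have h3 : dist H G = dist G H := by rw [dist, dist, symmDiff_comm]
  rw [h3] at h2
  rw [abs_le]
  have h1' : (G.edgeSet.ncard : ℝ) ≤ H.edgeSet.ncard + dist G H := by exact_mod_cast h1
  have h2' : (H.edgeSet.ncard : ℝ) ≤ G.edgeSet.ncard + dist G H := by exact_mod_cast h2
  constructor <;> linarith

/-- every number of edges is reached by the least possible number of changes -/
theorem exists_dist {v : ℕ} (G : SimpleGraph (Fin v)) (m : ℕ) (hm : m ≤ v.choose 2) :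
    ∃ H : SimpleGraph (Fin v), H.edgeSet.ncard = m ∧
      (dist G H : ℝ) ≤ |(G.edgeSet.ncard : ℝ) - m| := by
  have hfin : ∀ s : Set (Sym2 (Fin v)), s.Finite := fun s => Set.toFinite s
  have build : ∀ s : Set (Sym2 (Fin v)), s ⊆ (⊤ : SimpleGraph (Fin v)).edgeSet →
      (SimpleGraph.fromEdgeSet s).edgeSet = s := by
    intro s hs
    rw [SimpleGraph.edgeSet_fromEdgeSet]
    ext x
    constructor
    · exact fun h => h.1
    · intro h
      refine ⟨h, fun hd => ?_⟩
      have := hs h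
      exact SimpleGraph.not_isDiag_of_mem_edgeSet _ this hd
  rcases le_total m G.edgeSet.ncard with h | h
  · obtain ⟨s, hs, hc⟩ := Set.exists_subset_card_eq h
    refine ⟨SimpleGraph.fromEdgeSet s, ?_, ?_⟩
    · rw [build s (hs.trans (SimpleGraph.edgeSet_mono le_top)), hc]
    · rw [dist, build s (hs.trans (SimpleGraph.edgeSet_mono le_top))]
      have h1 : symmDiff G.edgeSet s = G.edgeSet \ s := by
        rw [Set.symmDiff_def, Set.sdiff_eq_empty.2 hs, Set.union_empty]
      have h2 : (G.edgeSet \ s).ncard = G.edgeSet.ncard - s.ncard :=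
        Set.ncard_sdiff hs (hfin s)
      rw [h1, h2, hc, Nat.cast_sub h, abs_of_nonneg]
      have : (m : ℝ) ≤ G.edgeSet.ncard := by exact_mod_cast h
      linarith
  · rw [← ncard_top v] at hm
    obtain ⟨s, hs1, hs2, hc⟩ := Set.exists_subsuperset_card_eq
      (SimpleGraph.edgeSet_mono (le_top : G ≤ ⊤)) h hm
    refine ⟨SimpleGraph.fromEdgeSet s, ?_, ?_⟩
    · rw [build s hs2, hc]
    · rw [dist, build s hs2]
      have h1 : symmDiff G.edgeSet s = s \ G.edgeSet := by
        rw [Set.symmDiff_def, Set.sdiff_eq_empty.2 hs1, Set.empty_union]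
      have h2 : (s \ G.edgeSet).ncard = s.ncard - G.edgeSet.ncard :=
        Set.ncard_sdiff hs1 (hfin _)
      rw [h1, h2, hc, Nat.cast_sub h, abs_of_nonpos]
      · linarith
      · have : (G.edgeSet.ncard : ℝ) ≤ m := by exact_mod_cast h
        linarith

theorem main (k : ℕ) (hk : 2 ≤ k) (α : ℝ) (hα : α < 1) : ∃ v₀ : ℕ, ∀ v : ℕ, v₀ ≤ v →
    ∃ G ∈ Far ((1 / 2 : ℝ) ^ k * (v.choose 2 : ℝ)) (Far ((1 / 2 : ℝ) ^ k * (v.choose 2 : ℝ)) (Pr v)),
      G ∉ Near (α * ((1 / 2 : ℝ) ^ k * (v.choose 2 : ℝ))) (Pr v) := by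
  obtain ⟨j, rfl⟩ : ∃ j, k = j + 2 := ⟨k - 2, by omega⟩
  -- choose `v₀` with `(1 - α) δ > 1`
  obtain ⟨M, hM⟩ := exists_nat_gt (2 ^ (j + 2) / (1 - α) : ℝ)
  refine ⟨M + 3, fun v hv => ?_⟩
  set N := v.choose 2 with hN
  have hNv : v ≤ N := by
    have h1 : N = v * (v - 1) / 2 := Nat.choose_two_right v
    have h2 : v * 2 ≤ v * (v - 1) := Nat.mul_le_mul_left v (by omega)
    omega
  have hN1 : 1 ≤ N := by omega
  have hp : (0 : ℝ) < 2 ^ (j + 2) := by positivity
  have hδ : ((1 / 2 : ℝ) ^ (j + 2) * (N : ℝ)) = N / 2 ^ (j + 2) := by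
    rw [one_div, inv_pow]; field_simp
  rw [hδ]
  set δ : ℝ := N / 2 ^ (j + 2) with hδdef
  set g : ℕ := (N - 1) / 2 ^ (j + 2) with hg
  -- `g` is the largest integer below `δ`
  have hgδ : (g : ℝ) < δ := by
    rw [hδdef, lt_div_iff₀ hp]
    have h1 : g * 2 ^ (j + 2) ≤ N - 1 := Nat.div_mul_le_self _ _
    have h2 : g * 2 ^ (j + 2) < N := by omega
    exact_mod_cast h2
  have hgmax : ∀ d : ℕ, (d : ℝ) < δ → d ≤ g := by
    intro d hd
    rw [hδdef, lt_div_iff₀ hp] at hd
    have h2 : d * 2 ^ (j + 2) < N := by exact_mod_cast hd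
    rw [hg, Nat.le_div_iff_mul_le (by positivity)]
    omega
  have hgα : α * δ < g := by
    have h1 : δ - 1 ≤ g := by
      have h2 : ¬ ((g + 1 : ℕ) : ℝ) < δ := fun h => by
        have := hgmax _ h
        omega
      push_cast at h2
      linarith [not_lt.1 h2]
    have h3 : 1 < (1 - α) * δ := by
      have h4 : (0 : ℝ) < 1 - α := by linarith
      have h5 : (2 ^ (j + 2) / (1 - α) : ℝ) < N := by
        have : (M : ℝ) ≤ N := by exact_mod_cast (by omega : M ≤ N)
        linarith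
      rw [div_lt_iff₀ h4] at h5
      rw [hδdef, mul_div_assoc', lt_div_iff₀ hp]
      linarith
    linarith
  -- the middle of the gap
  have hr0 : r N (j + 1 + 1) = r N (j + 1) + 2 * g := rfl
  have hrle : r N (j + 1 + 1) ≤ N := by
    have := r_le N (j + 1)
    omega
  obtain ⟨G, hG, -⟩ := exists_dist (⊥ : SimpleGraph (Fin v)) (r N (j + 1) + g) (by omega)
  refine ⟨G, ?_, ?_⟩
  · intro H hH
    by_contra hlt
    push Not at hlt
    have h1 := abs_sub_le G H
    rw [hG] at h1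
    -- the number of edges of `H` is in the gap
    have hd : dist G H ≤ g := hgmax _ hlt
    have h2 : |((r N (j + 1) + g : ℕ) : ℝ) - H.edgeSet.ncard| ≤ g :=
      h1.trans (by exact_mod_cast hd)
    rw [abs_le] at h2
    push_cast at h2
    have h3 : r N (j + 1) ≤ H.edgeSet.ncard := by
      have : (r N (j + 1) : ℝ) ≤ H.edgeSet.ncard := by linarith
      exact_mod_cast this
    have h4 : H.edgeSet.ncard ≤ r N (j + 1) + 2 * g := by
      have : (H.edgeSet.ncard : ℝ) ≤ (r N (j + 1) + 2 * g : ℕ) := by push_cast; linarith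
      exact_mod_cast this
    rcases le_total H.edgeSet.ncard (r N (j + 1) + g) with h5 | h5
    · obtain ⟨H', hH', hdist⟩ := exists_dist H (r N (j + 1)) (by omega)
      have h6 := hH H' ⟨j, hH'⟩
      have h7 : |(H.edgeSet.ncard : ℝ) - (r N (j + 1) : ℕ)| ≤ g := by
        have h5' : (H.edgeSet.ncard : ℝ) ≤ (r N (j + 1) + g : ℕ) := by exact_mod_cast h5
        have h3' : (r N (j + 1) : ℝ) ≤ H.edgeSet.ncard := by exact_mod_cast h3
        push_cast at h5'
        rw [abs_le]
        constructor <;> linarith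
      linarith
    · obtain ⟨H', hH', hdist⟩ := exists_dist H (r N (j + 1 + 1)) (by omega)
      have h6 := hH H' ⟨j + 1, hH'⟩
      have h7 : |(H.edgeSet.ncard : ℝ) - (r N (j + 1 + 1) : ℕ)| ≤ g := by
        have h5' : ((r N (j + 1) + g : ℕ) : ℝ) ≤ H.edgeSet.ncard := by exact_mod_cast h5
        have h4' : (H.edgeSet.ncard : ℝ) ≤ (r N (j + 1) + 2 * g : ℕ) := by exact_mod_cast h4
        rw [hr0]
        push_cast at h5' h4' ⊢
        rw [abs_le]
        constructor <;> linarith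
      linarith
  · rintro ⟨H, ⟨i, hi⟩, hH⟩
    have h1 := abs_sub_le G H
    rw [hG, hi] at h1
    -- the numbers `r N i` are monotone
    have hmono : Monotone fun i => r N (i + 1) := monotone_nat_of_le_succ fun n => by
      have : r N (n + 1 + 1) = r N (n + 1) + 2 * ((N - 1) / 2 ^ (n + 2)) := rfl
      simp only [this]
      omega
    have h2 : (g : ℝ) ≤ |((r N (j + 1) + g : ℕ) : ℝ) - (r N (i + 1) : ℕ)| := by
      rcases le_or_gt i j with h | h
      · have h3 : r N (i + 1) ≤ r N (j + 1) := hmono h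
        have h3' : (r N (i + 1) : ℝ) ≤ r N (j + 1) := by exact_mod_cast h3
        push_cast
        refine le_trans ?_ (le_abs_self _)
        linarith
      · have h3 : r N (j + 1 + 1) ≤ r N (i + 1) := hmono h
        have h3' : ((r N (j + 1) + 2 * g : ℕ) : ℝ) ≤ r N (i + 1) := by
          rw [← hr0]
          exact_mod_cast h3
        push_cast at h3' ⊢
        refine le_trans ?_ (neg_le_abs _)
        linarith
    linarith

/-- **Dual problems need not reduce to tolerant testing.** There is a graph property `P` such that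
for every `k ≥ 2` and `ε = 2⁻ᵏ`, every `α < 1` and all large `v`, with `δ = ε (v choose 2)`, some
graph in `F_δ(F_δ(P_v))` is at distance more than `α δ` from `P_v`. In particular the dual problem
of `P` does not reduce to tolerant testing. -/
theorem result : ∃ P : ∀ v : ℕ, Set (SimpleGraph (Fin v)), IsGraphProperty P ∧
    (∀ k : ℕ, 2 ≤ k → ∀ α : ℝ, α < 1 → ∃ v₀ : ℕ, ∀ v : ℕ, v₀ ≤ v →
      ∃ G ∈ Far ((1 / 2 : ℝ) ^ k * (v.choose 2 : ℝ)) (Far ((1 / 2 : ℝ) ^ k * (v.choose 2 : ℝ)) (P v)),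
        G ∉ Near (α * ((1 / 2 : ℝ) ^ k * (v.choose 2 : ℝ))) (P v)) ∧
    ¬ DualReduces P := by
  refine ⟨Pr, isGraphProperty, main, ?_⟩
  rintro ⟨ε₀, h0, h⟩
  obtain ⟨k, hk⟩ := exists_pow_lt_of_lt_one h0 (by norm_num : (1 / 2 : ℝ) < 1)
  have hk2 : (1 / 2 : ℝ) ^ (k + 2) ≤ ε₀ := by
    refine le_trans ?_ hk.le
    exact pow_le_pow_of_le_one (by norm_num) (by norm_num) (by omega)
  obtain ⟨α, hα, v₀, hv₀⟩ := h _ (by positivity) hk2
  obtain ⟨v₁, hv₁⟩ := main (k + 2) (by omega) α hα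
  obtain ⟨G, hG1, hG2⟩ := hv₁ (max v₀ v₁) (le_max_right _ _)
  exact hG2 (hv₀ _ (le_max_left _ _) hG1)

end Pool.Agent.Results.MP_cccbef_lc.EdgeCounts
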